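import Pool.Agent.W135.RT.Par6b

set_option autoImplicit false

namespace Pool.Agent.W135.RT

open Pool.Agent.W307.RT Pool.Agent.W262.RK WeierstrassCurve.Affine

theorem fin_eq (h : ISO) {A B u v : ℤ} {s : ℚ} (hR : R6 A B u v s) :
    Module.finrank ℤ (Sh A B).toAffine.Point =
      Module.finrank ℤ (EAB (-(M6 u v)) (-(N6 u v))).toAffine.Point := by
  set r : ℚ := s ^ 2 * ((M6 u v : ℚ) + N6 u v) / 3 with hr
  obtain ⟨e⟩ := h 0 (A : ℚ) (B : ℚ) r s hR.s0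
  have hs := hR.s0
  have h1 : (⟨0, (0 + 3 * r) / s ^ 2, 0, ((A : ℚ) + 2 * r * 0 + 3 * r ^ 2) / s ^ 4,
      ((B : ℚ) + r * A + r ^ 2 * 0 + r ^ 3) / s ^ 6⟩ : WeierstrassCurve ℚ) =
      EAB (-(M6 u v)) (-(N6 u v)) := by
    have e1 : (0 + 3 * r) / s ^ 2 = (M6 u v : ℚ) + N6 u v := by
      rw [hr]; field_simp; ring
    have e2 : ((A : ℚ) + 2 * r * 0 + 3 * r ^ 2) / s ^ 4 = (M6 u v : ℚ) * N6 u v := by
      rw [div_eq_iff (pow_ne_zero 4 hs), hr]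
      linear_combination (1 / 3) * hR.ea
    have e3 : ((B : ℚ) + r * A + r ^ 2 * 0 + r ^ 3) / s ^ 6 = 0 := by
      rw [div_eq_zero_iff]; left
      rw [hr]
      linear_combination (1 / 27) * hR.eb + (1 / 9) * s ^ 2 * ((M6 u v : ℚ) + N6 u v) * hR.ea
    rw [e1, e2, e3]
    unfold EAB
    push_cast
    congr 1 <;> ring
  have h2 := (e.toIntLinearEquiv).finrank_eq
  have h3 : (Sh A B) = (⟨0, 0, 0, (A : ℚ), (B : ℚ)⟩ : WeierstrassCurve ℚ) := rfl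
  rw [h3, h2, h1]

theorem bez {u v : ℤ} (h : IsCoprime u v) : ∃ x y : ℤ, x * M6 u v + y * N6 u v = 3 := by
  obtain ⟨p, q, hpq⟩ := h
  have h : IsCoprime u v := ⟨p, q, hpq⟩
  have hg : IsCoprime (u + 2 * v) (v ^ 3) := by
    apply IsCoprime.pow_right
    exact (IsCoprime.add_mul_right_left_iff (x := u) (y := v) (z := 2)).mpr h
  have hu : IsCoprime (u ^ 3) (v ^ 3 * (v + 2 * u)) := by
    apply IsCoprime.pow_left
    apply IsCoprime.mul_right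
    · exact IsCoprime.pow_right h
    · exact (IsCoprime.add_mul_right_right_iff (x := u) (y := v) (z := 2)).mpr h
  obtain ⟨γ, δ, hγ⟩ := hg
  obtain ⟨ε, ζ, hε⟩ := hu
  -- 3 = α g + β h
  have h3 : (2 * q - p) * (u + 2 * v) + (2 * p - q) * (v + 2 * u) = 3 := by
    linear_combination 3 * hpq
  have h4 : ((2 * q - p) + (2 * p - q) * (v + 2 * u) * γ) * (u + 2 * v) +
      (2 * p - q) * δ * (v ^ 3 * (v + 2 * u)) = 3 := by
    linear_combination h3 + (2 * p - q) * (v + 2 * u) * hγ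
  set a' := (2 * q - p) + (2 * p - q) * (v + 2 * u) * γ
  set b' := (2 * p - q) * δ
  refine ⟨a' * ε, (u + 2 * v) * a' * ζ + b', ?_⟩
  unfold M6 N6
  linear_combination h4 + a' * (u + 2 * v) * hε

theorem ineq1 (u v : ℝ) (h : v ^ 2 ≤ u ^ 2) :
    3 * u ^ 8 ≤ 16384 * ((u ^ 3 * (u + 2 * v)) ^ 2 - (u ^ 3 * (u + 2 * v)) * (v ^ 3 * (v + 2 * u)) +
      (v ^ 3 * (v + 2 * u)) ^ 2) := by
  set M := u ^ 3 * (u + 2 * v) with hM
  set N := v ^ 3 * (v + 2 * u) with hN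
  have k1 : 3 / 4 * M ^ 2 ≤ M ^ 2 - M * N + N ^ 2 := by nlinarith [sq_nonneg (M / 2 - N)]
  have k2 : 3 / 4 * N ^ 2 ≤ M ^ 2 - M * N + N ^ 2 := by nlinarith [sq_nonneg (N / 2 - M)]
  by_cases hc : u ^ 2 / 4 ≤ (u + 2 * v) ^ 2
  · have : u ^ 6 * (u ^ 2 / 4) ≤ M ^ 2 := by
      rw [hM, mul_pow, ← pow_mul]
      exact mul_le_mul_of_nonneg_left hc (by positivity)
    have h8 : u ^ 6 * (u ^ 2 / 4) = u ^ 8 / 4 := by ring
    have : 0 ≤ u ^ 8 := by positivity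
    linarith
  · have hc' := not_le.mp hc
    have hv : u ^ 2 / 16 ≤ v ^ 2 := by
      -- |u + 2v| < |u|/2
      have h1 : |u + 2 * v| ≤ |u| / 2 := by
        have h0 : |u| / 2 = |u / 2| := by rw [abs_div, abs_of_pos (by norm_num : (0 : ℝ) < 2)]
        rw [h0, ← sq_le_sq, div_pow]
        have : (2 : ℝ) ^ 2 = 4 := by norm_num
        rw [this]
        exact hc'.le
      have h2 : |u| ≤ |u + 2 * v| + |2 * v| := by
        calc |u| = |(u + 2 * v) - 2 * v| := by ring_nf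
          _ ≤ _ := abs_sub _ _
      rw [abs_mul, abs_of_pos (by norm_num : (0 : ℝ) < 2)] at h2
      have h3 : |u| / 4 ≤ |v| := by linarith
      have h4 : (|u| / 4) ^ 2 ≤ |v| ^ 2 := pow_le_pow_left₀ (by positivity) h3 2
      rw [div_pow, sq_abs, sq_abs] at h4
      norm_num at h4
      linarith
    have hw : u ^ 2 ≤ (v + 2 * u) ^ 2 := by
      have h1 : |v| ≤ |u| := sq_le_sq.mp h
      have h2 : |2 * u| ≤ |v + 2 * u| + |v| := by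
        calc |2 * u| = |(v + 2 * u) - v| := by ring_nf
          _ ≤ _ := abs_sub _ _
      rw [abs_mul, abs_of_pos (by norm_num : (0 : ℝ) < 2)] at h2
      exact sq_le_sq.mpr (by linarith)
    have h5 : (u ^ 2 / 16) ^ 3 ≤ (v ^ 2) ^ 3 := pow_le_pow_left₀ (by positivity) hv 3
    have h6 : (u ^ 2 / 16) ^ 3 * u ^ 2 ≤ N ^ 2 := by
      rw [hN, mul_pow, ← pow_mul, mul_comm 3 2, pow_mul]
      exact mul_le_mul h5 hw (by positivity) (by positivity)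
    have h7 : (u ^ 2 / 16) ^ 3 * u ^ 2 = u ^ 8 / 4096 := by ring
    linarith

theorem ineq2 (u v : ℝ) :
    3 * u ^ 8 ≤ 16384 * ((u ^ 3 * (u + 2 * v)) ^ 2 - (u ^ 3 * (u + 2 * v)) * (v ^ 3 * (v + 2 * u)) +
      (v ^ 3 * (v + 2 * u)) ^ 2) ∧
    3 * v ^ 8 ≤ 16384 * ((u ^ 3 * (u + 2 * v)) ^ 2 - (u ^ 3 * (u + 2 * v)) * (v ^ 3 * (v + 2 * u)) +
      (v ^ 3 * (v + 2 * u)) ^ 2) := by
  rcases le_total (v ^ 2) (u ^ 2) with h | h
  · have h1 := ineq1 u v h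
    have h2 : (v ^ 2) ^ 4 ≤ (u ^ 2) ^ 4 := pow_le_pow_left₀ (by positivity) h 4
    refine ⟨h1, ?_⟩
    have : v ^ 8 ≤ u ^ 8 := by calc v ^ 8 = (v ^ 2) ^ 4 := by ring
      _ ≤ _ := h2
      _ = _ := by ring
    linarith
  · have h1 := ineq1 v u h
    have h2 : (u ^ 2) ^ 4 ≤ (v ^ 2) ^ 4 := pow_le_pow_left₀ (by positivity) h 4
    have h3 : u ^ 8 ≤ v ^ 8 := by calc u ^ 8 = (u ^ 2) ^ 4 := by ring
      _ ≤ _ := h2
      _ = _ := by ring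
    have h4 : (v ^ 3 * (v + 2 * u)) ^ 2 - (v ^ 3 * (v + 2 * u)) * (u ^ 3 * (u + 2 * v)) +
      (u ^ 3 * (u + 2 * v)) ^ 2 = (u ^ 3 * (u + 2 * v)) ^ 2 -
        (u ^ 3 * (u + 2 * v)) * (v ^ 3 * (v + 2 * u)) + (v ^ 3 * (v + 2 * u)) ^ 2 := by ring
    rw [h4] at h1
    exact ⟨by linarith, h1⟩

theorem bound {A B u v : ℤ} {s : ℚ} (hR : R6 A B u v s) (w : ℤ) (hw : w = u ∨ w = v) :
    w ^ 8 ≤ 147456 * |A| := by
  obtain ⟨x, y, hxy⟩ := bez hR.cop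
  obtain ⟨i, hi⟩ := hR.im
  obtain ⟨j, hj⟩ := hR.jn
  have h1 : 3 * s ^ 2 = ((x * i + y * j : ℤ) : ℚ) := by
    push_cast
    rw [← hi, ← hj]
    have : ((x * M6 u v + y * N6 u v : ℤ) : ℚ) = 3 := by rw [hxy]; norm_num
    push_cast at this
    linear_combination -s ^ 2 * this
  have hs2 : 0 < s ^ 2 := by have := hR.s0; positivity
  have h2 : (1 : ℚ) ≤ 3 * s ^ 2 := by
    rw [h1]
    have h3 : (0 : ℚ) < ((x * i + y * j : ℤ) : ℚ) := by rw [← h1]; linarith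
    have h4 : (0 : ℤ) < x * i + y * j := by exact_mod_cast h3
    exact_mod_cast h4
  set K : ℤ := (M6 u v) ^ 2 - M6 u v * N6 u v + (N6 u v) ^ 2 with hK
  have hK0 : 0 ≤ K := by
    have : 0 ≤ 4 * K := by rw [hK]; nlinarith [sq_nonneg (2 * M6 u v - N6 u v), sq_nonneg (N6 u v)]
    omega
  have hKq : (K : ℚ) = (M6 u v : ℚ) ^ 2 - M6 u v * N6 u v + (N6 u v : ℚ) ^ 2 := by
    rw [hK]; push_cast; ring
  have h5 : 3 * (A : ℚ) = -s ^ 4 * K := by rw [hKq]; exact hR.ea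
  have h6 : (K : ℚ) ≤ 27 * |(A : ℚ)| := by
    have h7 : 3 * |(A : ℚ)| = s ^ 4 * K := by
      have : |3 * (A : ℚ)| = |-s ^ 4 * K| := by rw [h5]
      rw [abs_mul, abs_mul, abs_neg, abs_of_nonneg (by positivity : (0 : ℚ) ≤ s ^ 4)] at this
      rw [abs_of_nonneg (by exact_mod_cast hK0 : (0 : ℚ) ≤ K)] at this
      simpa using this
    have h8 : (1 : ℚ) ≤ 9 * s ^ 4 := by nlinarith
    have h9 : (1 : ℚ) * K ≤ 9 * s ^ 4 * K := mul_le_mul_of_nonneg_right h8 (by exact_mod_cast hK0)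
    linarith
  have h10 : K ≤ 27 * |A| := by exact_mod_cast h6
  have h11 : 3 * w ^ 8 ≤ 16384 * K := by
    have h12 := ineq2 (u : ℝ) (v : ℝ)
    have h13 : (K : ℝ) = ((u : ℝ) ^ 3 * (u + 2 * v)) ^ 2 - (u ^ 3 * (u + 2 * v)) *
        (v ^ 3 * (v + 2 * u)) + (v ^ 3 * (v + 2 * u)) ^ 2 := by
      rw [hK]; unfold M6 N6; push_cast; ring
    rw [← h13] at h12
    rcases hw with rfl | rfl
    · exact_mod_cast h12.1
    · exact_mod_cast h12.2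
  omega

theorem bound2 {A B u v : ℤ} {s : ℚ} (hR : R6 A B u v s) (H : ℕ) (hH : 4 * |A| ^ 3 ≤ (H : ℤ))
    (w : ℤ) (hw : w = u ∨ w = v) : w.natAbs ^ 24 ≤ 147456 ^ 3 * H := by
  have h1 := bound hR w hw
  have h2 : (w ^ 8) ^ 3 ≤ (147456 * |A|) ^ 3 := pow_le_pow_left₀ (by positivity) h1 3
  have h3 : (w ^ 8) ^ 3 ≤ 147456 ^ 3 * (H : ℤ) := by
    calc (w ^ 8) ^ 3 ≤ (147456 * |A|) ^ 3 := h2
      _ = 147456 ^ 3 * |A| ^ 3 := by ring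
      _ ≤ 147456 ^ 3 * (H : ℤ) := by
        apply mul_le_mul_of_nonneg_left _ (by positivity)
        have : 0 ≤ |A| ^ 3 := by positivity
        linarith
  zify
  calc |w| ^ 24 = (w ^ 8) ^ 3 := by
        rw [← pow_mul]; exact (by decide : Even 24).pow_abs w
    _ ≤ _ := h3

theorem minim {A B : ℤ} (hmin : ∀ p : ℕ, p.Prime → ¬ ((p : ℤ) ^ 4 ∣ A ∧ (p : ℤ) ^ 6 ∣ B)) (d n : ℤ)
    (hdn : IsCoprime d n) (hA : d ^ 4 ∣ n ^ 4 * A) (hB : d ^ 6 ∣ n ^ 6 * B) : d.natAbs = 1 := by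
  by_contra hd
  obtain ⟨p, hp, hpd⟩ := Nat.exists_prime_and_dvd hd
  have hpd' : (p : ℤ) ∣ d := Int.natCast_dvd.mpr hpd
  apply hmin p hp
  have hc : IsCoprime (p : ℤ) n := hdn.of_isCoprime_of_dvd_left hpd'
  constructor
  · exact (IsCoprime.pow hc : IsCoprime ((p : ℤ) ^ 4) (n ^ 4)).dvd_of_dvd_mul_left
      ((pow_dvd_pow_of_dvd hpd' 4).trans hA)
  · exact (IsCoprime.pow hc : IsCoprime ((p : ℤ) ^ 6) (n ^ 6)).dvd_of_dvd_mul_left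
      ((pow_dvd_pow_of_dvd hpd' 6).trans hB)

theorem inj {A B A' B' u v : ℤ} {s s' : ℚ} (hR : R6 A B u v s) (hR' : R6 A' B' u v s')
    (hmin : ∀ p : ℕ, p.Prime → ¬ ((p : ℤ) ^ 4 ∣ A ∧ (p : ℤ) ^ 6 ∣ B))
    (hmin' : ∀ p : ℕ, p.Prime → ¬ ((p : ℤ) ^ 4 ∣ A' ∧ (p : ℤ) ^ 6 ∣ B')) : A = A' ∧ B = B' := by
  set σ : ℚ := s / s' with hσ
  have hs' := hR'.s0
  have hs : s = σ * s' := by rw [hσ]; field_simp
  have h1 : (A : ℚ) = σ ^ 4 * A' := by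
    have e1 := hR.ea
    have e2 := hR'.ea
    rw [hs] at e1
    linear_combination (1 / 3) * e1 - (1 / 3) * σ ^ 4 * e2
  have h2 : (B : ℚ) = σ ^ 6 * B' := by
    have e1 := hR.eb
    have e2 := hR'.eb
    rw [hs] at e1
    linear_combination (1 / 27) * e1 - (1 / 27) * σ ^ 6 * e2
  have hd0 : ((σ.den : ℤ) : ℚ) ≠ 0 := by exact_mod_cast σ.den_nz
  have hσ2 : σ * ((σ.den : ℤ) : ℚ) = (σ.num : ℚ) := by
    exact_mod_cast Rat.mul_den_eq_num σ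
  have h3 : A * (σ.den : ℤ) ^ 4 = σ.num ^ 4 * A' := by
    have : (A : ℚ) * ((σ.den : ℤ) : ℚ) ^ 4 = (σ.num : ℚ) ^ 4 * A' := by
      rw [h1, ← hσ2]; ring
    exact_mod_cast this
  have h4 : B * (σ.den : ℤ) ^ 6 = σ.num ^ 6 * B' := by
    have : (B : ℚ) * ((σ.den : ℤ) : ℚ) ^ 6 = (σ.num : ℚ) ^ 6 * B' := by
      rw [h2, ← hσ2]; ring
    exact_mod_cast this
  have hcop : IsCoprime (σ.den : ℤ) σ.num := by
    rw [Int.isCoprime_iff_gcd_eq_one, Int.gcd_comm]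
    exact σ.reduced
  have h5 : ((σ.den : ℤ)).natAbs = 1 :=
    minim hmin' _ _ hcop ⟨A, by rw [← h3]; ring⟩ ⟨B, by rw [← h4]; ring⟩
  have h6 : (σ.num).natAbs = 1 :=
    minim hmin _ _ hcop.symm ⟨A', by rw [← h3]; ring⟩ ⟨B', by rw [← h4]; ring⟩
  have h7 : (σ.den : ℤ) = 1 := by omega
  rw [h7] at h3 h4
  have h8 : σ.num = 1 ∨ σ.num = -1 := by omega
  rcases h8 with h8 | h8 <;> rw [h8] at h3 h4 <;> constructor <;> linarith

open Classical in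
/-- the parameters of a curve -/
noncomputable def FF (c : ℤ × ℤ) : ℤ × ℤ :=
  if h : ∃ (w : ℤ × ℤ) (s : ℚ), R6 c.1 c.2 w.1 w.2 s then h.choose else (0, 0)

theorem memCv {c : ℤ × ℤ} {H : ℕ} (hc : c ∈ Cv 6 H) :
    4 * c.1 ^ 3 + 27 * c.2 ^ 2 ≠ 0 ∧ 4 * |c.1| ^ 3 ≤ H ∧ 27 * c.2 ^ 2 ≤ H ∧
    (∀ p : ℕ, p.Prime → ¬ ((p : ℤ) ^ 4 ∣ c.1 ∧ (p : ℤ) ^ 6 ∣ c.2)) ∧ HasT 6 (Sh c.1 c.2) := by
  classical
  exact (Finset.mem_filter.mp hc).2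

theorem FF_spec {c : ℤ × ℤ} {H : ℕ} (hc : c ∈ Cv 6 H) :
    ∃ s : ℚ, R6 c.1 c.2 (FF c).1 (FF c).2 s := by
  obtain ⟨hD, _, _, _, hT⟩ := memCv hc
  have h : ∃ (w : ℤ × ℤ) (s : ℚ), R6 c.1 c.2 w.1 w.2 s := by
    obtain ⟨u, v, s, hR⟩ := exR hD hT
    exact ⟨(u, v), s, hR⟩
  unfold FF
  rw [dif_pos h]
  exact h.choose_spec

theorem par6_of (h : Pool.Agent.W307.RT.ISO) : Pool.Agent.W307.RT.PAR6 := by
  refine ⟨147456 ^ 3, FF, fun H => ⟨?_, ?_⟩⟩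
  · intro c hc c' hc' hcc
    obtain ⟨s, hR⟩ := FF_spec hc
    obtain ⟨s', hR'⟩ := FF_spec hc'
    rw [← hcc] at hR'
    have hc1 := memCv (Finset.mem_coe.mp hc)
    have hc1' := memCv (Finset.mem_coe.mp hc')
    obtain ⟨h1, h2⟩ := inj hR hR' hc1.2.2.2.1 hc1'.2.2.2.1
    exact Prod.ext h1 h2
  · intro c hc
    obtain ⟨s, hR⟩ := FF_spec hc
    have hc1 := memCv hc
    exact ⟨hR.cop, hR.m0, hR.n0, hR.mn, bound2 hR H hc1.2.1 _ (Or.inl rfl),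
      bound2 hR H hc1.2.1 _ (Or.inr rfl), fin_eq h hR⟩

end Pool.Agent.W135.RT
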