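import Pool.Agent.W135.RT.Par6a

set_option autoImplicit false

namespace Pool.Agent.W135.RT

open Pool.Agent.W307.RT Pool.Agent.W262.RK WeierstrassCurve.Affine

/-- the data attached to a curve with a subgroup `Z/2 x Z/6` -/
structure R6 (A B u v : ℤ) (s : ℚ) : Prop where
  s0 : s ≠ 0
  cop : IsCoprime u v
  m0 : M6 u v ≠ 0
  n0 : N6 u v ≠ 0
  mn : M6 u v ≠ N6 u v
  ea : 3 * (A : ℚ) = -s ^ 4 * ((M6 u v : ℚ) ^ 2 - M6 u v * N6 u v + (N6 u v : ℚ) ^ 2)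
  eb : 27 * (B : ℚ) = s ^ 6 * (((M6 u v : ℚ) + N6 u v) * (2 * M6 u v - N6 u v) *
    (M6 u v - 2 * N6 u v))
  im : ∃ i : ℤ, s ^ 2 * (M6 u v : ℚ) = i
  jn : ∃ j : ℤ, s ^ 2 * (N6 u v : ℚ) = j

theorem int_root {A B : ℤ} {e : ℚ} (h : e ^ 3 + A * e + B = 0) : ∃ i : ℤ, e = i := by
  have h1 : IsIntegral ℤ e := by
    refine ⟨Polynomial.X ^ 3 + Polynomial.C A * Polynomial.X + Polynomial.C B, ?_, ?_⟩
    · rw [add_assoc]
      apply Polynomial.monic_X_pow_add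
      calc (Polynomial.C A * Polynomial.X + Polynomial.C B : Polynomial ℤ).degree ≤ 1 :=
            Polynomial.degree_linear_le
        _ < 3 := by norm_num
    · rw [Polynomial.eval₂_add, Polynomial.eval₂_add, Polynomial.eval₂_mul, Polynomial.eval₂_pow,
        Polynomial.eval₂_X, Polynomial.eval₂_C, Polynomial.eval₂_C]
      exact h
  obtain ⟨y, hy⟩ := IsIntegrallyClosed.isIntegral_iff.mp h1
  exact ⟨y, by rw [← hy]; simp⟩

/-- parametrisation of the roots by `r_i` -/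
theorem alg1 {A B : ℤ} (hD : 4 * A ^ 3 + 27 * B ^ 2 ≠ 0) {e1 e2 x y : ℚ} (h12 : e1 ≠ e2)
    (h1 : e1 ^ 3 + A * e1 + B = 0) (h2 : e2 ^ 3 + A * e2 + B = 0) (hy : y ≠ 0)
    (hxy : y ^ 2 = x ^ 3 + A * x + B) (h3 : (3 * x ^ 2 + A) ^ 2 = 12 * x * y ^ 2) :
    ∃ r1 r2 r3 e3 : ℚ, r1 ≠ 0 ∧ r2 ≠ 0 ∧ r1 + r2 ≠ 0 ∧ r3 = -(r1 * r2) / (r1 + r2) ∧
      e3 = -e1 - e2 ∧ e3 ≠ e1 ∧ e3 ≠ e2 ∧ e3 ^ 3 + A * e3 + B = 0 ∧
      (A : ℚ) = e1 * e2 + e1 * e3 + e2 * e3 ∧ (B : ℚ) = -(e1 * e2 * e3) ∧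
      e3 - e1 = r1 ^ 2 - r3 ^ 2 ∧ e3 - e2 = r2 ^ 2 - r3 ^ 2 := by
  have hA : (A : ℚ) = -(e1 ^ 2 + e1 * e2 + e2 ^ 2) := by
    have : (e1 - e2) * (e1 ^ 2 + e1 * e2 + e2 ^ 2 + A) = 0 := by linear_combination h1 - h2
    have := (mul_eq_zero.mp this).resolve_left (sub_ne_zero.mpr h12)
    linarith
  have hB : (B : ℚ) = e1 * e2 * (e1 + e2) := by
    rw [hA] at h1; linear_combination h1
  set e3 : ℚ := -e1 - e2 with he3
  have hA' : (A : ℚ) = e1 * e2 + e1 * e3 + e2 * e3 := by rw [hA, he3]; ring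
  have hB' : (B : ℚ) = -(e1 * e2 * e3) := by rw [hB, he3]; ring
  have hdisc : 4 * (A : ℚ) ^ 3 + 27 * (B : ℚ) ^ 2 =
      -((e1 - e2) ^ 2 * (e1 - e3) ^ 2 * (e2 - e3) ^ 2) := by
    rw [hA, hB, he3]; ring
  have hD' : 4 * (A : ℚ) ^ 3 + 27 * (B : ℚ) ^ 2 ≠ 0 := by exact_mod_cast hD
  have h31 : e3 ≠ e1 := by
    intro h; apply hD'; rw [hdisc, h]; ring
  have h32 : e3 ≠ e2 := by
    intro h; apply hD'; rw [hdisc, h]; ring
  have hroot : e3 ^ 3 + A * e3 + B = 0 := by rw [hA, hB, he3]; ring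
  set d1 := x - e1 with hd1
  set d2 := x - e2 with hd2
  set d3 := x - e3 with hd3
  have hy2 : y ^ 2 = d1 * d2 * d3 := by
    rw [hxy, hA, hB, hd1, hd2, hd3, he3]; ring
  set S := d1 * d2 + d1 * d3 + d2 * d3 with hS
  have hS' : 3 * x ^ 2 + A = S := by
    rw [hS, hA, hd1, hd2, hd3, he3]; ring
  have hsum : d1 + d2 + d3 = 3 * x := by rw [hd1, hd2, hd3, he3]; ring
  have hSS : S ^ 2 = 4 * y ^ 2 * (d1 + d2 + d3) := by
    rw [← hS', h3, hsum]; ring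
  have hd0 : d1 * d2 * d3 ≠ 0 := by rw [← hy2]; exact pow_ne_zero 2 hy
  have hd10 : d1 ≠ 0 := by intro h; apply hd0; rw [h]; ring
  have hd20 : d2 ≠ 0 := by intro h; apply hd0; rw [h]; ring
  have hd30 : d3 ≠ 0 := by intro h; apply hd0; rw [h]; ring
  set r1 := (S - 2 * (d2 * d3)) / (2 * y) with hr1
  set r2 := (S - 2 * (d1 * d3)) / (2 * y) with hr2
  set r3 := (S - 2 * (d1 * d2)) / (2 * y) with hr3
  have hy4 : (2 * y) ^ 2 = 4 * (d1 * d2 * d3) := by rw [← hy2]; ring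
  have hy0 : (4 * (d1 * d2 * d3) : ℚ) ≠ 0 := mul_ne_zero (by norm_num) hd0
  have q1 : r1 ^ 2 = d1 := by
    rw [hr1, div_pow, hy4, div_eq_iff hy0]
    linear_combination hSS + 4 * (d1 + d2 + d3) * hy2 - 4 * (d2 * d3) * hS
  have q2 : r2 ^ 2 = d2 := by
    rw [hr2, div_pow, hy4, div_eq_iff hy0]
    linear_combination hSS + 4 * (d1 + d2 + d3) * hy2 - 4 * (d1 * d3) * hS
  have q3 : r3 ^ 2 = d3 := by
    rw [hr3, div_pow, hy4, div_eq_iff hy0]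
    linear_combination hSS + 4 * (d1 + d2 + d3) * hy2 - 4 * (d1 * d2) * hS
  have q4 : r1 * r2 + r1 * r3 + r2 * r3 = 0 := by
    have : r1 * r2 + r1 * r3 + r2 * r3 = ((S - 2 * (d2 * d3)) * (S - 2 * (d1 * d3)) +
      (S - 2 * (d2 * d3)) * (S - 2 * (d1 * d2)) + (S - 2 * (d1 * d3)) * (S - 2 * (d1 * d2))) /
      (2 * y) ^ 2 := by
      rw [hr1, hr2, hr3]; field_simp
    rw [this, div_eq_zero_iff]
    left
    linear_combination -hSS - 4 * (d1 + d2 + d3) * hy2 + 4 * S * hS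
  have r10 : r1 ≠ 0 := by intro h; apply hd10; rw [← q1, h]; ring
  have r20 : r2 ≠ 0 := by intro h; apply hd20; rw [← q2, h]; ring
  have r12 : r1 + r2 ≠ 0 := by
    intro h
    have : r1 * r2 = 0 := by linear_combination q4 - r3 * h
    rcases mul_eq_zero.mp this with h | h
    · exact r10 h
    · exact r20 h
  refine ⟨r1, r2, r3, e3, r10, r20, r12, ?_, rfl, h31, h32, hroot, hA', hB', ?_, ?_⟩
  · rw [eq_div_iff r12]; linear_combination q4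
  · rw [q1, q3, hd1, hd3]; ring
  · rw [q2, q3, hd2, hd3]; ring

theorem exR {A B : ℤ} (hD : 4 * A ^ 3 + 27 * B ^ 2 ≠ 0) (hT : HasT 6 (Sh A B)) :
    ∃ (u v : ℤ) (s : ℚ), R6 A B u v s := by
  obtain ⟨P, Q, hP, hQ, hQP⟩ := hT
  have h3P : addOrderOf (3 • P) = 2 := by
    rw [addOrderOf_nsmul' P (by norm_num), hP]; norm_num
  have h2P : addOrderOf (2 • P) = 3 := by
    rw [addOrderOf_nsmul' P (by norm_num), hP]; norm_num
  obtain ⟨e1, he1, hPe1, h1⟩ := ord2 _ h3P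
  obtain ⟨e2, he2, hQe2, h2⟩ := ord2 _ hQ
  obtain ⟨x, y, hy, hxy, h3⟩ := ord3 _ h2P
  have h12 : e1 ≠ e2 := by
    intro h
    subst h
    apply hQP
    rw [AddSubgroup.mem_zmultiples_iff]
    refine ⟨3, ?_⟩
    have : (3 : ℤ) • P = 3 • P := by norm_cast
    rw [this, hPe1, hQe2]
  obtain ⟨r1, r2, r3, e3, r10, r20, r12, hr3, he3, h31, h32, hroot, hA, hB, hr13, hr23⟩ :=
    alg1 hD h12 h1 h2 hy hxy h3
  have hρ : r1 / r2 ≠ 0 := div_ne_zero r10 r20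
  set u : ℤ := (r1 / r2).num with hu
  set v : ℤ := ((r1 / r2).den : ℤ) with hv
  have hv0 : (v : ℚ) ≠ 0 := by rw [hv]; exact_mod_cast (r1 / r2).den_nz
  have huv : (u : ℚ) / v = r1 / r2 := by rw [hu, hv]; exact_mod_cast Rat.num_div_den (r1 / r2)
  have hu0 : (u : ℚ) ≠ 0 := by
    intro h; apply hρ; rw [← huv, h, zero_div]
  set t : ℚ := r2 / v with ht
  have ht0 : t ≠ 0 := div_ne_zero r20 hv0
  have hr2 : r2 = t * v := by rw [ht]; field_simp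
  have hr1 : r1 = t * u := by
    rw [ht]; rw [div_eq_div_iff hv0 r20] at huv
    field_simp
    linarith
  have huv0 : (u : ℚ) + v ≠ 0 := by
    intro h
    apply r12
    rw [hr1, hr2, ← mul_add, h, mul_zero]
  set s : ℚ := t / (u + v) with hs
  have hs0 : s ≠ 0 := div_ne_zero ht0 huv0
  have hts : t = s * (u + v) := by rw [hs]; field_simp
  have hr3' : r3 = -(s * (u * v)) := by
    rw [hr3, hr1, hr2, hts]
    rw [div_eq_iff]
    · ring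
    · rw [← mul_add, ← hts]; exact mul_ne_zero ht0 huv0
  have eM : e3 - e1 = s ^ 2 * (M6 u v : ℚ) := by
    rw [hr13, hr3', hr1, hts]; unfold M6; push_cast; ring
  have eN : e3 - e2 = s ^ 2 * (N6 u v : ℚ) := by
    rw [hr23, hr3', hr2, hts]; unfold N6; push_cast; ring
  have e3eq : 3 * e3 = s ^ 2 * ((M6 u v : ℚ) + N6 u v) := by
    rw [mul_add, ← eM, ← eN, he3]; ring
  refine ⟨u, v, s, hs0, ?_, ?_, ?_, ?_, ?_, ?_, ?_, ?_⟩
  · rw [hu, hv, Int.isCoprime_iff_gcd_eq_one]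
    exact (r1 / r2).reduced
  · intro h
    apply h31
    rw [h] at eM
    simp at eM
    linarith
  · intro h
    apply h32
    rw [h] at eN
    simp at eN
    linarith
  · intro h
    apply h12
    rw [h] at eM
    linarith
  · have a1 : e1 = e3 - s ^ 2 * (M6 u v : ℚ) := by linarith
    have a2 : e2 = e3 - s ^ 2 * (N6 u v : ℚ) := by linarith
    have a3 : e3 = s ^ 2 * ((M6 u v : ℚ) + N6 u v) / 3 := by linarith
    rw [hA, a1, a2, a3]; ring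
  · have a1 : e1 = e3 - s ^ 2 * (M6 u v : ℚ) := by linarith
    have a2 : e2 = e3 - s ^ 2 * (N6 u v : ℚ) := by linarith
    have a3 : e3 = s ^ 2 * ((M6 u v : ℚ) + N6 u v) / 3 := by linarith
    rw [hB, a1, a2, a3]; ring
  · obtain ⟨i, hi⟩ := int_root hroot
    obtain ⟨j, hj⟩ := int_root h1
    exact ⟨i - j, by rw [← eM, hi, hj]; push_cast; ring⟩
  · obtain ⟨i, hi⟩ := int_root hroot
    obtain ⟨j, hj⟩ := int_root h2
    exact ⟨i - j, by rw [← eN, hi, hj]; push_cast; ring⟩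

end Pool.Agent.W135.RT
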