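import Pool.Agent.W307.RT.Stm

set_option autoImplicit false

namespace Pool.Agent.W135.RT

open Pool.Agent.W307.RT Pool.Agent.W262.RK WeierstrassCurve.Affine

theorem ord2 {A B : ℤ} (P : (Sh A B).toAffine.Point) (h : addOrderOf P = 2) :
    ∃ (x : ℚ) (hx : (Sh A B).toAffine.Nonsingular x 0), P = .some x 0 hx ∧
      x ^ 3 + A * x + B = 0 := by
  have h1 : P + P = 0 := by
    have := addOrderOf_nsmul_eq_zero P
    rwa [h, two_nsmul] at this
  have h2 : P = -P := eq_neg_of_add_eq_zero_left h1
  rcases P with _ | ⟨x, y, hxy⟩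
  · exfalso
    have : addOrderOf (Point.zero : (Sh A B).toAffine.Point) = 1 := addOrderOf_zero
    omega
  · rw [Point.neg_some] at h2
    have h3 : y = (Sh A B).toAffine.negY x y := by
      injection h2
    have h4 : y = 0 := by
      unfold negY Sh at h3
      simp only [zero_mul, sub_zero] at h3
      linarith
    subst h4
    refine ⟨x, hxy, rfl, ?_⟩
    have h5 := hxy.1
    rw [equation_iff] at h5
    unfold Sh at h5
    simp only at h5
    linarith

theorem ord3 {A B : ℤ} (T : (Sh A B).toAffine.Point) (h : addOrderOf T = 3) :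
    ∃ (x y : ℚ), y ≠ 0 ∧ y ^ 2 = x ^ 3 + A * x + B ∧ (3 * x ^ 2 + A) ^ 2 = 12 * x * y ^ 2 := by
  have h1 : T + T + T = 0 := by
    have := addOrderOf_nsmul_eq_zero T
    rwa [h, show (3 : ℕ) = 2 + 1 from rfl, add_nsmul, two_nsmul, one_nsmul] at this
  have h2 : T + T = -T := eq_neg_of_add_eq_zero_left h1
  rcases T with _ | ⟨x, y, hxy⟩
  · exfalso
    have : addOrderOf (Point.zero : (Sh A B).toAffine.Point) = 1 := addOrderOf_zero
    omega
  · have h3 : y ≠ (Sh A B).toAffine.negY x y := by
      intro h3
      rw [Point.add_self_of_Y_eq h3] at h2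
      rw [eq_comm, neg_eq_zero] at h2
      exact Point.some_ne_zero hxy h2
    rw [Point.add_self_of_Y_ne h3, Point.neg_some] at h2
    have h4 : (Sh A B).toAffine.addX x x ((Sh A B).toAffine.slope x x y y) = x := by
      injection h2
    rw [slope_of_Y_ne rfl h3] at h4
    have h5 : (Sh A B).toAffine.negY x y = -y := by
      unfold negY Sh; simp
    rw [h5] at h3 h4
    have hy : y ≠ 0 := by
      intro h; rw [h] at h3; simp at h3
    have h6 := hxy.1
    rw [equation_iff] at h6
    unfold Sh at h6 h4
    unfold addX at h4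
    simp only at h6 h4
    refine ⟨x, y, hy, by linarith, ?_⟩
    have h7 : y - -y ≠ 0 := by
      intro h; apply hy; linarith
    field_simp at h4
    nlinarith [h4]

end Pool.Agent.W135.RT
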